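import Mathlib

open Set Filter Topology Uniformity

namespace Pool.Agent.Results.MP_f56686_gt.NotTukey

/-! ### Definitions used in the statement -/

/-- `P ≤_T Q`: some map from `Q` to `P` sends cofinal subsets of `Q` to cofinal subsets of `P`. -/
def TukeyLE (P Q : Type) [Preorder P] [Preorder Q] : Prop :=
  ∃ f : Q → P, ∀ C : Set Q, IsCofinal C → IsCofinal (f '' C)

/-- `P =_T Q`. -/
def TukeyEquiv (P Q : Type) [Preorder P] [Preorder Q] : Prop :=
  TukeyLE P Q ∧ TukeyLE Q P

/-- The entourages of a uniform space, ordered by reverse inclusion. -/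
abbrev Ent (X : Type) [UniformSpace X] : Type := {U : Set (X × X) // U ∈ 𝓤 X}ᵒᵈ

/-- The neighbourhoods of the identity in a group with a group topology, ordered by reverse
inclusion. -/
abbrev Nbhd {G : Type} [Group G] (t : GroupTopology G) : Type :=
  {V : Set G // V ∈ @nhds G t.toTopologicalSpace 1}ᵒᵈ

/-- For each entourage countably many balls cover the space. -/
def OmegaNarrow (X : Type) [UniformSpace X] : Prop :=
  ∀ U ∈ 𝓤 X, ∃ A : Set X, A.Countable ∧ ∀ x : X, ∃ a ∈ A, (a, x) ∈ U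

/-- Uniform continuity of a map from a uniform space to a group with a group topology, the group
carrying its two-sided uniformity. -/
def TwoSidedUC {X G : Type} [UniformSpace X] [Group G] (t : GroupTopology G) (f : X → G) : Prop :=
  Tendsto (fun p : X × X => (f p.1)⁻¹ * f p.2) (𝓤 X) (@nhds G t.toTopologicalSpace 1) ∧
  Tendsto (fun p : X × X => f p.1 * (f p.2)⁻¹) (𝓤 X) (@nhds G t.toTopologicalSpace 1)

/-- `t` is the topology of the free topological group over the uniform space `X`: the finest group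
topology on the free group for which the canonical map is uniformly continuous. -/
def IsFreeGroupTopology (X : Type) [UniformSpace X] (t : GroupTopology (FreeGroup X)) : Prop :=
  IsLeast {s : GroupTopology (FreeGroup X) | TwoSidedUC s (FreeGroup.of : X → FreeGroup X)} t

/-! ### The combinatorial core -/

section core

variable {D : Type} (b : (ℕ → ℕ) → D → ℕ)

theorem local_bound (hmono : ∀ s t : ℕ → ℕ, s ≤ t → ∀ l, b s l ≤ b t l) (s : ℕ → ℕ) (l : D) :
    ∃ k M : ℕ, ∀ t : ℕ → ℕ, (∀ i < k, t i = s i) → b t l ≤ M := by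
  by_contra hcon
  push Not at hcon
  choose T hT1 hT2 using fun k => hcon k k
  let u : ℕ → ℕ := fun j => ((Finset.range (j + 1)).sup (fun k => T k j)) ⊔ s j
  have hle : ∀ k, T k ≤ u := by
    intro k j
    by_cases hkj : k ≤ j
    · have : T k j ≤ (Finset.range (j + 1)).sup (fun k => T k j) :=
        Finset.le_sup (f := fun k => T k j) (Finset.mem_range.mpr (Nat.lt_succ_of_le hkj))
      exact this.trans le_sup_left
    · rw [hT1 k j (not_le.mp hkj)]
      exact le_sup_right
  have h1 := hT2 (b u l)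
  have h2 := hmono _ _ (hle (b u l)) l
  exact absurd h1 (not_lt.mpr h2)

/-- good initial segments -/
def Good (k : ℕ) (s : ℕ → ℕ) : Prop :=
  ∀ (A : Set D) (n : D → ℕ), A.Countable →
    ∃ t : ℕ → ℕ, (∀ i < k, t i = s i) ∧ {l | l ∈ A ∧ b t l < n l}.Finite

theorem good_step (k : ℕ) (s : ℕ → ℕ) (h : Good b k s) :
    ∃ j, Good b (k + 1) (Function.update s k j) := by
  classical
  by_contra hcon
  push Not at hcon
  have hcon' : ∀ j, ∃ (A : Set D) (n : D → ℕ), A.Countable ∧
      ∀ t : ℕ → ℕ, (∀ i < k + 1, t i = Function.update s k j i) →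
        ¬ {l | l ∈ A ∧ b t l < n l}.Finite := by
    intro j
    have := hcon j
    unfold Good at this
    push Not at this
    obtain ⟨A, n, hA, h⟩ := this
    exact ⟨A, n, hA, fun t ht => h t ht⟩
  choose A n hA hn using hcon'
  have hU : (⋃ j, A j).Countable := Set.countable_iUnion hA
  obtain ⟨e, he⟩ := Set.countable_iff_exists_injOn.mp hU
  let N : D → ℕ := fun l => (Finset.range (e l + 1)).sup (fun j => n j l)
  obtain ⟨t, ht1, ht2⟩ := h (⋃ j, A j) N hU
  apply hn (t k) t
  · intro i hi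
    by_cases hik : i = k
    · rw [hik, Function.update_self]
    · rw [Function.update_of_ne hik]
      exact ht1 i (lt_of_le_of_ne (Nat.lt_succ_iff.mp hi) hik)
  · have hsub : {l | l ∈ A (t k) ∧ b t l < n (t k) l} ⊆
        {l | l ∈ ⋃ j, A j ∧ b t l < N l} ∪ {l | l ∈ ⋃ j, A j ∧ e l < t k} := by
      rintro l ⟨hl, hlt⟩
      have hlU : l ∈ ⋃ j, A j := mem_iUnion.mpr ⟨_, hl⟩
      by_cases hel : e l < t k
      · right; exact ⟨hlU, hel⟩
      · left
        refine ⟨hlU, hlt.trans_le ?_⟩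
        exact Finset.le_sup (f := fun j => n j l)
          (Finset.mem_range.mpr (Nat.lt_succ_of_le (not_lt.mp hel)))
    refine Set.Finite.subset (ht2.union ?_) hsub
    refine Set.Finite.of_finite_image (f := e) ?_ (he.mono (fun l hl => hl.1))
    refine (Set.finite_Iio (t k)).subset ?_
    rintro _ ⟨l, hl, rfl⟩
    exact hl.2

theorem core [Uncountable D] (hmono : ∀ s t : ℕ → ℕ, s ≤ t → ∀ l, b s l ≤ b t l)
    (hcof : ∀ (A : Set D) (n : D → ℕ), A.Countable → ∃ t, ∀ l ∈ A, n l ≤ b t l) : False := by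
  classical
  have h0 : Good b 0 (fun _ => 0) := by
    intro A n hA
    obtain ⟨t, ht⟩ := hcof A n hA
    refine ⟨t, fun i hi => absurd hi (Nat.not_lt_zero i), ?_⟩
    refine (Set.finite_empty (α := D)).subset ?_
    rintro l ⟨hl, hlt⟩
    exact absurd hlt (not_lt.mpr (ht l hl))
  choose J hJ using good_step b
  let σ : ∀ k : ℕ, {s : ℕ → ℕ // Good b k s} := fun k =>
    Nat.rec ⟨fun _ => 0, h0⟩
      (fun k s => ⟨Function.update s.1 k (J k s.1 s.2), hJ k s.1 s.2⟩) k
  have hσ : ∀ k, (σ (k + 1)).1 = Function.update (σ k).1 k (J k (σ k).1 (σ k).2) := fun k => rfl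
  let s : ℕ → ℕ := fun i => (σ (i + 1)).1 i
  have hs : ∀ k, ∀ i < k, (σ k).1 i = s i := by
    intro k
    induction k with
    | zero => intro i hi; exact absurd hi (Nat.not_lt_zero i)
    | succ k ih =>
      intro i hi
      by_cases hik : i = k
      · subst hik; rfl
      · have hlt : i < k := lt_of_le_of_ne (Nat.lt_succ_iff.mp hi) hik
        rw [hσ, Function.update_of_ne hik]
        exact ih i hlt
  choose K M hKM using local_bound b hmono s
  have hK : ∃ k, ¬ (K ⁻¹' {k}).Countable := by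
    by_contra hcon
    push Not at hcon
    have : (Set.univ : Set D).Countable := by
      have h1 : (Set.univ : Set D) = ⋃ k, K ⁻¹' {k} := by
        ext l; simp
      rw [h1]
      exact Set.countable_iUnion hcon
    exact Set.not_countable_univ this
  obtain ⟨k, hk⟩ := hK
  have hinf : (K ⁻¹' {k}).Infinite := fun hfin => hk hfin.countable
  let em := hinf.natEmbedding
  let A : Set D := Set.range (fun i => (em i : D))
  have hAc : A.Countable := Set.countable_range _
  have hAinf : A.Infinite := Set.infinite_range_of_injective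
    (Subtype.val_injective.comp em.injective)
  obtain ⟨t, ht1, ht2⟩ := (σ k).2 A (fun l => M l + 1) hAc
  apply hAinf
  refine ht2.subset ?_
  rintro _ ⟨i, rfl⟩
  refine ⟨⟨i, rfl⟩, ?_⟩
  have hKk : K (em i : D) = k := (em i).2
  have := hKM (em i : D) t (by
    intro j hj
    rw [hKk] at hj
    rw [ht1 j hj]
    exact hs k j hj)
  exact Nat.lt_succ_of_le this

end core


/-! ### The uniform space -/

/-- The points of the example: an uncountable set and a sequence. -/
inductive Pt : Type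
  | big : Set ℕ → Pt
  | small : ℕ → Pt

open Classical in
/-- The class of a point. -/
noncomputable def key (A : Set (Set ℕ)) (m : ℕ) : Pt → Option Pt × Bool
  | Pt.big a => (if a ∈ A then some (Pt.big a) else none, true)
  | Pt.small i => (if i < m then some (Pt.small i) else none, false)

/-- The basic entourages. -/
def E (A : Set (Set ℕ)) (m : ℕ) : Set (Pt × Pt) := {p | key A m p.1 = key A m p.2}

theorem key_big (A : Set (Set ℕ)) (m : ℕ) (a c : Set ℕ) :
    key A m (Pt.big a) = key A m (Pt.big c) ↔ (a = c ∨ (a ∉ A ∧ c ∉ A)) := by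
  simp only [key, Prod.mk.injEq, and_true]
  by_cases ha : a ∈ A <;> by_cases hc : c ∈ A <;> simp [ha, hc]
  · intro h; rw [h] at ha; exact hc ha
  · intro h; rw [h] at ha; exact ha hc

theorem key_small (A : Set (Set ℕ)) (m : ℕ) (i j : ℕ) :
    key A m (Pt.small i) = key A m (Pt.small j) ↔ (i = j ∨ (m ≤ i ∧ m ≤ j)) := by
  simp only [key, Prod.mk.injEq, and_true]
  by_cases ha : i < m <;> by_cases hc : j < m
  · simp only [ha, hc, if_true, Option.some.injEq, Pt.small.injEq]
    constructor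
    · intro h; left; exact h
    · rintro (h | h)
      · exact h
      · omega
  · simp only [ha, hc, if_true, if_false]
    constructor
    · intro h; exact absurd h (by simp)
    · rintro (h | h) <;> omega
  · simp only [ha, hc, if_true, if_false]
    constructor
    · intro h; exact absurd h (by simp)
    · rintro (h | h) <;> omega
  · simp only [ha, hc, if_false, true_iff]
    right; omega

theorem key_mixed (A : Set (Set ℕ)) (m : ℕ) (a : Set ℕ) (j : ℕ) :
    key A m (Pt.big a) ≠ key A m (Pt.small j) := by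
  simp [key]

theorem E_mono {A B : Set (Set ℕ)} {m k : ℕ} (hAB : A ⊆ B) (hmk : m ≤ k) : E B k ⊆ E A m := by
  rintro ⟨x, y⟩ h
  have h : key B k x = key B k y := h
  show key A m x = key A m y
  cases x with
  | big a =>
    cases y with
    | big c =>
      rw [key_big] at h ⊢
      rcases h with h | h
      · left; exact h
      · right; exact ⟨fun ha => h.1 (hAB ha), fun hc => h.2 (hAB hc)⟩
    | small j => exact absurd h (key_mixed _ _ _ _)
  | small i =>
    cases y with
    | big c => exact absurd h.symm (key_mixed _ _ _ _)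
    | small j =>
      rw [key_small] at h ⊢
      rcases h with h | h
      · left; exact h
      · right; exact ⟨hmk.trans h.1, hmk.trans h.2⟩

/-- The basis of the uniformity. -/
def basis : FilterBasis (Pt × Pt) where
  sets := {U | ∃ (A : Set (Set ℕ)) (m : ℕ), A.Countable ∧ U = E A m}
  nonempty := ⟨E ∅ 0, ∅, 0, Set.countable_empty, rfl⟩
  inter_sets := by
    rintro _ _ ⟨A, m, hA, rfl⟩ ⟨B, k, hB, rfl⟩
    refine ⟨E (A ∪ B) (max m k), ⟨_, _, hA.union hB, rfl⟩, ?_⟩
    exact Set.subset_inter (E_mono Set.subset_union_left (le_max_left _ _))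
      (E_mono Set.subset_union_right (le_max_right _ _))

/-- The uniform structure of the example. -/
instance unif : UniformSpace Pt :=
  UniformSpace.ofCore (UniformSpace.Core.mkOfBasis basis
    (by
      rintro _ ⟨A, m, _, rfl⟩ x
      rfl)
    (by
      rintro _ ⟨A, m, hA, rfl⟩
      exact ⟨E A m, ⟨A, m, hA, rfl⟩, fun p hp => Eq.symm hp⟩)
    (by
      rintro _ ⟨A, m, hA, rfl⟩
      refine ⟨E A m, ⟨A, m, hA, rfl⟩, ?_⟩
      rintro ⟨x, y⟩ ⟨z, hz1, hz2⟩
      exact Eq.trans hz1 hz2))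

theorem mem_unif (U : Set (Pt × Pt)) :
    U ∈ 𝓤 Pt ↔ ∃ (A : Set (Set ℕ)) (m : ℕ), A.Countable ∧ E A m ⊆ U := by
  constructor
  · intro h
    obtain ⟨V, ⟨A, m, hA, rfl⟩, hV⟩ := (FilterBasis.mem_filter_iff basis).mp h
    exact ⟨A, m, hA, hV⟩
  · rintro ⟨A, m, hA, h⟩
    exact (FilterBasis.mem_filter_iff basis).mpr ⟨_, ⟨A, m, hA, rfl⟩, h⟩

theorem t2 : T2Space Pt := by
  have : T0Space Pt := by
    rw [t0Space_iff_uniformity]
    intro x y h
    cases x with
    | big a =>
      have h1 := h (E {a} 0) ((mem_unif _).mpr ⟨{a}, 0, Set.countable_singleton _, le_refl _⟩)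
      cases y with
      | big c =>
        rcases (key_big _ _ _ _).mp h1 with h1 | h1
        · rw [h1]
        · exact absurd rfl h1.1
      | small j => exact absurd h1 (key_mixed _ _ _ _)
    | small i =>
      have h1 := h (E ∅ (i + 1)) ((mem_unif _).mpr ⟨∅, i + 1, Set.countable_empty, le_refl _⟩)
      cases y with
      | big c => exact absurd (Eq.symm h1) (key_mixed _ _ _ _)
      | small j =>
        rcases (key_small _ _ _ _).mp h1 with h1 | h1
        · rw [h1]
        · omega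
  infer_instance

instance unc : Uncountable (Set ℕ) := by
  rw [← Cardinal.aleph0_lt_mk_iff, Cardinal.mk_set, Cardinal.mk_nat]
  exact Cardinal.cantor _

theorem omegaNarrow : OmegaNarrow Pt := by
  intro U hU
  obtain ⟨A, m, hA, hAU⟩ := (mem_unif U).mp hU
  have : ∃ d : Set ℕ, d ∉ A := by
    by_contra hcon
    push Not at hcon
    exact Set.not_countable_univ (hA.mono (fun d _ => hcon d))
  obtain ⟨d, hd⟩ := this
  refine ⟨(Pt.big '' A) ∪ {Pt.big d} ∪ Set.range Pt.small,
    ((hA.image _).union (Set.countable_singleton _)).union (Set.countable_range _), ?_⟩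
  intro x
  cases x with
  | big a =>
    by_cases ha : a ∈ A
    · exact ⟨Pt.big a, Or.inl (Or.inl ⟨a, ha, rfl⟩), hAU rfl⟩
    · exact ⟨Pt.big d, Or.inl (Or.inr rfl), hAU ((key_big _ _ _ _).mpr (Or.inr ⟨hd, ha⟩))⟩
  | small i => exact ⟨Pt.small i, Or.inr ⟨i, rfl⟩, hAU rfl⟩

/-! ### Homomorphisms to permutations -/

open Classical in
/-- images of generators -/
noncomputable def gen (A : Set (Set ℕ)) (n : Set ℕ → ℕ) : Pt → Equiv.Perm ℕ
  | Pt.big a => if a ∈ A then Equiv.swap 0 (n a) else 1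
  | Pt.small i => Equiv.swap i (i + 1)

/-- the homomorphism -/
noncomputable def hom (A : Set (Set ℕ)) (n : Set ℕ → ℕ) : FreeGroup Pt →* Equiv.Perm ℕ :=
  FreeGroup.lift (gen A n)

/-- pointwise stabilisers pulled back -/
def stab (A : Set (Set ℕ)) (n : Set ℕ → ℕ) (F : Finset ℕ) : Set (FreeGroup Pt) :=
  {g | ∀ i ∈ F, hom A n g i = i}

/-- group filter basis of the pulled back permutation topology -/
@[instance_reducible] def gfb (A : Set (Set ℕ)) (n : Set ℕ → ℕ) : GroupFilterBasis (FreeGroup Pt) where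
  sets := {U | ∃ F : Finset ℕ, U = stab A n F}
  nonempty := ⟨_, ∅, rfl⟩
  inter_sets := by
    rintro _ _ ⟨F, rfl⟩ ⟨F', rfl⟩
    refine ⟨stab A n (F ∪ F'), ⟨_, rfl⟩, ?_⟩
    intro g hg
    exact ⟨fun i hi => hg i (Finset.mem_union_left _ hi),
      fun i hi => hg i (Finset.mem_union_right _ hi)⟩
  one' := by
    rintro _ ⟨F, rfl⟩ i _
    simp
  mul' := by
    rintro _ ⟨F, rfl⟩
    refine ⟨stab A n F, ⟨F, rfl⟩, ?_⟩
    rintro _ ⟨g, hg, h, hh, rfl⟩ i hi
    show hom A n (g * h) i = i
    rw [map_mul, Equiv.Perm.mul_apply, hh i hi, hg i hi]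
  inv' := by
    rintro _ ⟨F, rfl⟩
    refine ⟨stab A n F, ⟨F, rfl⟩, ?_⟩
    intro g hg i hi
    show hom A n g⁻¹ i = i
    rw [map_inv, Equiv.Perm.inv_eq_iff_eq]
    exact (hg i hi).symm
  conj' := by
    rintro x _ ⟨F, rfl⟩
    refine ⟨stab A n (F.image (fun i => (hom A n x)⁻¹ i)), ⟨_, rfl⟩, ?_⟩
    intro g hg i hi
    show hom A n (x * g * x⁻¹) i = i
    have := hg _ (Finset.mem_image_of_mem _ hi)
    rw [map_mul, map_mul, map_inv, Equiv.Perm.mul_apply, Equiv.Perm.mul_apply, this]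
    exact Equiv.apply_symm_apply _ _

/-- the pulled back group topology -/
noncomputable def gt (A : Set (Set ℕ)) (n : Set ℕ → ℕ) : GroupTopology (FreeGroup Pt) :=
  { (gfb A n).topology with
    toIsTopologicalGroup := (gfb A n).isTopologicalGroup }

theorem mem_nhds_gt (A : Set (Set ℕ)) (n : Set ℕ → ℕ) (V : Set (FreeGroup Pt)) :
    V ∈ @nhds _ (gt A n).toTopologicalSpace 1 ↔ ∃ F, stab A n F ⊆ V := by
  have h := (gfb A n).nhds_one_hasBasis
  have h2 := h.mem_iff (t := V)
  constructor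
  · intro hV
    obtain ⟨_, ⟨F, rfl⟩, hF⟩ := h2.mp hV
    exact ⟨F, hF⟩
  · rintro ⟨F, hF⟩
    exact h2.mpr ⟨_, ⟨F, rfl⟩, hF⟩

theorem uc_gt (A : Set (Set ℕ)) (hA : A.Countable) (n : Set ℕ → ℕ) :
    TwoSidedUC (gt A n) (FreeGroup.of : Pt → FreeGroup Pt) := by
  have key1 : ∀ F : Finset ℕ, ∃ m : ℕ, ∀ x y, (x, y) ∈ E A m →
      ∀ i ∈ F, gen A n x i = gen A n y i ∧ (gen A n x)⁻¹ i = (gen A n y)⁻¹ i := by
    intro F
    refine ⟨F.sup id + 1, ?_⟩
    intro x y hxy i hi
    have hiF : i < F.sup id + 1 := Nat.lt_succ_of_le (Finset.le_sup (f := id) hi)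
    have hxy : key A (F.sup id + 1) x = key A (F.sup id + 1) y := hxy
    cases x with
    | big a =>
      cases y with
      | big c =>
        rcases (key_big _ _ _ _).mp hxy with h | h
        · rw [h]; exact ⟨rfl, rfl⟩
        · simp only [gen, h.1, h.2, if_false]
          exact ⟨trivial, trivial⟩
      | small j => exact absurd hxy (key_mixed _ _ _ _)
    | small i' =>
      cases y with
      | big c => exact absurd hxy.symm (key_mixed _ _ _ _)
      | small j =>
        rcases (key_small _ _ _ _).mp hxy with h | h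
        · rw [h]; exact ⟨rfl, rfl⟩
        · have e1 : Equiv.swap i' (i' + 1) i = i :=
            Equiv.swap_apply_of_ne_of_ne (by omega) (by omega)
          have e2 : Equiv.swap j (j + 1) i = i :=
            Equiv.swap_apply_of_ne_of_ne (by omega) (by omega)
          simp only [gen, Equiv.swap_inv, e1, e2]
          exact ⟨trivial, trivial⟩
  have mem : ∀ F : Finset ℕ, {p : Pt × Pt | ∀ i ∈ F, gen A n p.1 i = gen A n p.2 i ∧
      (gen A n p.1)⁻¹ i = (gen A n p.2)⁻¹ i} ∈ 𝓤 Pt := by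
    intro F
    obtain ⟨m, hm⟩ := key1 F
    exact (mem_unif _).mpr ⟨A, m, hA, fun p hp => hm p.1 p.2 hp⟩
  constructor
  · intro V hV
    obtain ⟨F, hF⟩ := (mem_nhds_gt A n V).mp hV
    rw [Filter.mem_map]
    refine Filter.mem_of_superset (mem F) ?_
    intro p hp
    apply hF
    intro i hi
    have h := (hp i hi).1
    show hom A n ((FreeGroup.of p.1)⁻¹ * FreeGroup.of p.2) i = i
    simp only [hom, map_mul, map_inv, FreeGroup.lift_apply_of, Equiv.Perm.mul_apply]
    rw [← h]
    exact Equiv.symm_apply_apply _ _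
  · intro V hV
    obtain ⟨F, hF⟩ := (mem_nhds_gt A n V).mp hV
    rw [Filter.mem_map]
    refine Filter.mem_of_superset (mem F) ?_
    intro p hp
    apply hF
    intro i hi
    have h := (hp i hi).2
    show hom A n (FreeGroup.of p.1 * (FreeGroup.of p.2)⁻¹) i = i
    simp only [hom, map_mul, map_inv, FreeGroup.lift_apply_of, Equiv.Perm.mul_apply]
    rw [← h]
    exact Equiv.apply_symm_apply _ _

/-- the test words -/
def word (l : Set ℕ) (k : ℕ) : FreeGroup Pt :=
  (FreeGroup.of (Pt.big l))⁻¹ * (FreeGroup.of (Pt.small k) * (FreeGroup.of (Pt.small (k + 1)))⁻¹) *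
    FreeGroup.of (Pt.big l)

theorem word_notMem (A : Set (Set ℕ)) (n : Set ℕ → ℕ) (l : Set ℕ) (hl : l ∈ A) :
    word l (n l) ∉ stab A n {0} := by
  intro h
  have h0 := h 0 (Finset.mem_singleton_self 0)
  simp only [word, hom, map_mul, map_inv, FreeGroup.lift_apply_of, Equiv.Perm.mul_apply, gen, hl,
    if_true, Equiv.swap_inv, Equiv.swap_apply_left] at h0
  rw [Equiv.swap_apply_of_ne_of_ne (a := n l + 1) (b := n l + 1 + 1) (x := n l) (by omega)
    (by omega), Equiv.swap_apply_left,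
    Equiv.swap_apply_of_ne_of_ne (by omega) (by omega)] at h0
  omega

theorem word_tendsto (t : GroupTopology (FreeGroup Pt))
    (ht : TwoSidedUC t (FreeGroup.of : Pt → FreeGroup Pt)) (l : Set ℕ) :
    Tendsto (word l) atTop (@nhds _ t.toTopologicalSpace 1) := by
  let _ := t.toTopologicalSpace
  have _ := t.toIsTopologicalGroup
  have h1 : Tendsto (fun k : ℕ => (Pt.small k, Pt.small (k + 1))) atTop (𝓤 Pt) := by
    intro U hU
    obtain ⟨A, m, hA, hAU⟩ := (mem_unif U).mp hU
    rw [Filter.mem_map]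
    refine Filter.mem_of_superset (Filter.Ici_mem_atTop m) ?_
    intro k hk
    apply hAU
    exact (key_small _ _ _ _).mpr (Or.inr ⟨hk, (hk : m ≤ k).trans (Nat.le_succ k)⟩)
  have h2 := ht.2.comp h1
  have h3 : Tendsto (fun k : ℕ => (FreeGroup.of (Pt.big l))⁻¹ *
      (FreeGroup.of (Pt.small k) * (FreeGroup.of (Pt.small (k + 1)))⁻¹) *
      FreeGroup.of (Pt.big l)) atTop
      (𝓝 ((FreeGroup.of (Pt.big l))⁻¹ * 1 * FreeGroup.of (Pt.big l))) :=
    (tendsto_const_nhds.mul h2).mul tendsto_const_nhds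
  simp only [mul_one, inv_mul_cancel] at h3
  exact h3

/-- existence of the finest group topology -/
theorem exists_finest (X : Type) [UniformSpace X] :
    ∃ t : GroupTopology (FreeGroup X), IsFreeGroupTopology X t := by
  refine ⟨sInf {s | TwoSidedUC s (FreeGroup.of : X → FreeGroup X)}, ?_, ?_⟩
  · constructor
    · rw [GroupTopology.toTopologicalSpace_sInf, nhds_sInf]
      rw [tendsto_iInf]
      intro τ
      rw [tendsto_iInf]
      rintro ⟨s, hs, rfl⟩
      exact hs.1
    · rw [GroupTopology.toTopologicalSpace_sInf, nhds_sInf]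
      rw [tendsto_iInf]
      intro τ
      rw [tendsto_iInf]
      rintro ⟨s, hs, rfl⟩
      exact hs.2
  · intro s hs
    exact sInf_le hs

/-! ### Main result -/

theorem not_tukeyLE (t : GroupTopology (FreeGroup Pt)) (ht : IsFreeGroupTopology Pt t) :
    ¬ TukeyLE (Nbhd t) (ℕ → Ent Pt) := by
  classical
  rintro ⟨φ, hφ⟩
  -- Galois-Tukey form
  have hψ : ∀ V : Nbhd t, ∃ q : ℕ → Ent Pt, ∀ r, q ≤ r → V ≤ φ r := by
    intro V
    by_contra hcon
    push Not at hcon
    have hC : IsCofinal {r : ℕ → Ent Pt | ¬ V ≤ φ r} := by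
      intro q
      obtain ⟨r, hr, hr'⟩ := hcon q
      exact ⟨r, hr', hr⟩
    obtain ⟨_, ⟨r, hr, rfl⟩, h⟩ := hφ _ hC V
    exact hr h
  -- neighbourhoods V_{A,n}
  have hV : ∀ (A : Set (Set ℕ)) (n : Set ℕ → ℕ), A.Countable →
      stab A n {0} ∈ @nhds _ t.toTopologicalSpace 1 := by
    intro A n hA
    have hle : t ≤ gt A n := ht.2 (uc_gt A hA n)
    have h1 : @nhds _ t.toTopologicalSpace 1 ≤ @nhds _ (gt A n).toTopologicalSpace 1 :=
      nhds_mono hle
    exact h1 ((mem_nhds_gt A n _).mpr ⟨{0}, le_refl _⟩)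
  -- basic elements of U^ω
  let Q : {B : Set (Set ℕ) // B.Countable} → (ℕ → ℕ) → (ℕ → Ent Pt) := fun B s i =>
    OrderDual.toDual ⟨E B.1 (s i), (mem_unif _).mpr ⟨B.1, s i, B.2, le_refl _⟩⟩
  have hQ : ∀ q : ℕ → Ent Pt, ∃ B s, q ≤ Q B s := by
    intro q
    have : ∀ i, ∃ (A : Set (Set ℕ)) (m : ℕ), A.Countable ∧ E A m ⊆ (OrderDual.ofDual (q i)).1 :=
      fun i => (mem_unif _).mp (OrderDual.ofDual (q i)).2
    choose A m hA hAm using this
    refine ⟨⟨⋃ i, A i, Set.countable_iUnion hA⟩, m, ?_⟩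
    intro i
    show E (⋃ i, A i) (m i) ⊆ (OrderDual.ofDual (q i)).1
    exact (E_mono (Set.subset_iUnion A i) le_rfl).trans (hAm i)
  have hQmono : ∀ (B B' : {B : Set (Set ℕ) // B.Countable}) (s s' : ℕ → ℕ), B.1 ⊆ B'.1 → s ≤ s' →
      Q B s ≤ Q B' s' := by
    intro B B' s s' hB hs i
    show E B'.1 (s' i) ⊆ E B.1 (s i)
    exact E_mono hB (hs i)
  -- the connection
  have hΨ : ∀ p : {A : Set (Set ℕ) // A.Countable} × (Set ℕ → ℕ), ∃ (B : {B : Set (Set ℕ) // B.Countable}) (s : ℕ → ℕ),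
      ∀ B' s', B.1 ⊆ B'.1 → s ≤ s' → (OrderDual.ofDual (φ (Q B' s'))).1 ⊆ stab p.1.1 p.2 {0} := by
    intro p
    obtain ⟨q, hq⟩ := hψ (OrderDual.toDual ⟨stab p.1.1 p.2 {0}, hV p.1.1 p.2 p.1.2⟩)
    obtain ⟨B, s, hBs⟩ := hQ q
    refine ⟨B, s, fun B' s' hB hs => ?_⟩
    have := hq (Q B' s') (hBs.trans (hQmono B B' s s' hB hs))
    exact this
  choose ΨB Ψs hΨ' using hΨ
  -- the function b
  let S : (ℕ → ℕ) → Set ℕ → Set ℕ := fun t l =>
    {m | ∃ p : {A : Set (Set ℕ) // A.Countable} × (Set ℕ → ℕ), l ∈ p.1.1 ∧ Ψs p ≤ t ∧ m = p.2 l}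
  have hS : ∀ t l, BddAbove (S t l) := by
    intro s l
    by_contra hcon
    have hun : ∀ i : ℕ, ∃ p : {A : Set (Set ℕ) // A.Countable} × (Set ℕ → ℕ),
        l ∈ p.1.1 ∧ Ψs p ≤ s ∧ i < p.2 l := by
      intro i
      by_contra hcon2
      push Not at hcon2
      apply hcon
      refine ⟨i, ?_⟩
      rintro m ⟨p, hp1, hp2, rfl⟩
      exact hcon2 p hp1 hp2
    choose p hp1 hp2 hp3 using hun
    let B : {B : Set (Set ℕ) // B.Countable} :=
      ⟨⋃ i, (ΨB (p i)).1, Set.countable_iUnion (fun i => (ΨB (p i)).2)⟩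
    have hW : (OrderDual.ofDual (φ (Q B s))).1 ∈ @nhds _ t.toTopologicalSpace 1 :=
      (OrderDual.ofDual (φ (Q B s))).2
    have hev := word_tendsto t ht.1 l hW
    rw [Filter.mem_map, Filter.mem_atTop_sets] at hev
    obtain ⟨N, hN⟩ := hev
    have h1 : word l ((p N).2 l) ∈ (OrderDual.ofDual (φ (Q B s))).1 := hN _ (hp3 N).le
    have h2 := hΨ' (p N) B s (Set.subset_iUnion (fun i => (ΨB (p i)).1) N) (hp2 N) h1
    exact word_notMem _ _ l (hp1 N) h2
  refine core (D := Set ℕ) (fun s l => sSup (S s l)) ?_ ?_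
  · intro s s' hss l
    refine csSup_le_csSup' (hS s' l) ?_
    rintro m ⟨p, hp1, hp2, rfl⟩
    exact ⟨p, hp1, hp2.trans hss, rfl⟩
  · intro A n hA
    refine ⟨Ψs (⟨A, hA⟩, n), ?_⟩
    intro l hl
    exact le_csSup (hS _ l) ⟨(⟨A, hA⟩, n), hl, le_rfl, rfl⟩

theorem result : ∃ (X : Type) (_ : UniformSpace X), T2Space X ∧ OmegaNarrow X ∧
    ∃ t : GroupTopology (FreeGroup X), IsFreeGroupTopology X t ∧
      ¬ TukeyLE (Nbhd t) (ℕ → Ent X) ∧ ¬ TukeyEquiv (Nbhd t) (ℕ → Ent X) := by
  obtain ⟨t, ht⟩ := exists_finest Pt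
  exact ⟨Pt, unif, t2, omegaNarrow, t, ht, not_tukeyLE t ht, fun h => not_tukeyLE t ht h.1⟩

end Pool.Agent.Results.MP_f56686_gt.NotTukey
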